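import Mathlib
import Pool.Agent.H86.CMLib.Y114.RM.Stm

/-!
# Project RM, job TH: operators attached to additive functions of the eigenvalues
-/

set_option autoImplicit false

namespace Pool.Agent.Y960.RM

open Module Pool.Agent.TH118.SG Pool.Agent.Y114.RM

variable {K : Type} [Field K] {V : Type} [AddCommGroup V] [Module K V]

theorem scalar_gen {a β : K} {x : K} (hx : x ∈ (a • (1 : End K K)).maxGenEigenspace β)
    (h0 : x ≠ 0) : a = β := by
  obtain ⟨n, hn⟩ := mem_gen.1 hx
  by_contra hne
  have h1 : ∀ n : ℕ, ((a • (1 : End K K) - algebraMap K (End K K) β) ^ n) x = (a - β) ^ n * x := by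
    intro n
    induction n with
    | zero => simp
    | succ n ih =>
      rw [pow_succ', Module.End.mul_apply, ih, LinearMap.sub_apply, LinearMap.smul_apply,
        Module.End.one_apply, Module.algebraMap_end_apply, smul_eq_mul, smul_eq_mul]
      ring
  rw [h1] at hn
  rcases mul_eq_zero.1 hn with h2 | h2
  · exact pow_ne_zero n (sub_ne_zero.2 hne) h2
  · exact h0 h2

theorem tr : S_TR := by
  intro K _ _ _ V _ _ _ θ g Y hg hY
  classical
  let b := Module.finBasis K V
  have h1 := deriv_op (S := Fin (finrank K V)) θ g hg (LinearMap.det g • (1 : End K K)) hY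
    (Y' := ext0 θ (LinearMap.det g) • (1 : End K K)) (fun β x hx => by
      by_cases h0 : x = 0
      · rw [h0, map_zero, smul_zero]
      · rw [LinearMap.smul_apply, Module.End.one_apply, scalar_gen hx h0])
    (h := b.det.toMultilinearMap) (M := 1) Nat.one_pos (fun v => by
      rw [pow_one, pow_one]
      change b.det (g ∘ v) = LinearMap.det g * b.det v
      exact b.det_comp g v) b
  have h2 : (LinearMap.det g : K) • (1 : End K K) = (LinearMap.det g : K) • (1 : End K K) := rfl
  have h3 : (ext0 θ (LinearMap.det g) • (1 : End K K)) (b.det.toMultilinearMap b) =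
      ext0 θ (LinearMap.det g) := by
    change ext0 θ (LinearMap.det g) * b.det b = _
    rw [b.det_self, mul_one]
  rw [h3] at h1
  rw [← h1, LinearMap.trace_eq_matrix_trace K b, Matrix.trace]
  refine Finset.sum_congr rfl fun j _ => ?_
  change _ = b.det (Function.update b j (Y (b j)))
  rw [b.det_apply, Basis.toMatrix_update, Basis.toMatrix_self, ← Matrix.cramer_apply,
    Matrix.cramer_one]
  rw [Matrix.diag_apply, LinearMap.toMatrix_apply]
  rfl

theorem res : S_RES := by
  intro K _ _ _ V _ _ _ θ g Y hg hY W
  constructor
  · intro M hM hW x hx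
    have h1 : W = ⨆ c, W ⊓ (g ^ M).maxGenEigenspace c :=
      Submodule.eq_iSup_inf_genEigenspace ⊤ hW (Module.End.iSup_maxGenEigenspace_eq_top _)
    rw [h1] at hx
    induction hx using Submodule.iSup_induction' with
    | mem c x hx =>
      rw [op_pow θ g hY hM c x hx.2]
      exact W.smul_mem _ hx.1
    | zero =>
      rw [map_zero]
      exact W.zero_mem
    | add x y _ _ hx hy =>
      rw [map_add]
      exact W.add_mem hx hy
  · intro hg' hY' β x hx
    have h1 : (x : V) ∈ g.maxGenEigenspace β := by
      have h2 := Module.End.genEigenspace_restrict g W ⊤ β hg'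
      have h3 : x ∈ Submodule.comap W.subtype (g.maxGenEigenspace β) := by
        rw [Module.End.maxGenEigenspace, ← h2]
        exact hx
      exact h3
    apply Subtype.ext
    change Y (x : V) = ext0 θ β • (x : V)
    exact hY β x h1

theorem eval_gen {g g' : End K V} (h' : g' * g = 1) {β a : K} : ∀ (k m n : ℕ) (X : End K V) (x : V),
    m + n ≤ k → ((AdE g g' - algebraMap K (End K (End K V)) β) ^ m) X = 0 →
    ((g - algebraMap K (End K V) a) ^ n) x = 0 →
    ((g - algebraMap K (End K V) (β * a)) ^ k) (X x) = 0 := by
  intro k
  induction k with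
  | zero =>
    intro m n X x hmn hX _
    have h1 : m = 0 := by omega
    rw [h1, pow_zero, Module.End.one_apply] at hX
    rw [hX, LinearMap.zero_apply, map_zero]
  | succ k ih =>
    intro m n X x hmn hX hx
    rcases m with _ | m
    · rw [pow_zero, Module.End.one_apply] at hX
      rw [hX, LinearMap.zero_apply, map_zero]
    rcases n with _ | n
    · rw [pow_zero, Module.End.one_apply] at hx
      rw [hx, map_zero, map_zero]
    set N := AdE g g' - algebraMap K (End K (End K V)) β with hN
    set ν := g - algebraMap K (End K V) a with hν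
    have e1 : (N X) (ν x) + a • (N X) x + β • X (ν x) =
        (g - algebraMap K (End K V) (β * a)) (X x) := by
      have h2 : ∀ y, (N X) y = g (X (g' y)) - β • X y := fun y => rfl
      have h3 : ν x = g x - a • x := rfl
      have h4 : g' (g x) = x := by
        have h5 := congrArg (fun f : End K V => f x) h'
        exact h5
      have h5 : (g - algebraMap K (End K V) (β * a)) (X x) = g (X x) - (β * a) • X x := rfl
      rw [h5, h2, h2, h3]
      simp only [map_sub, map_smul, h4, smul_sub, smul_smul]
      rw [mul_comm a β]
      abel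
    rw [pow_succ, Module.End.mul_apply, ← e1, map_add, map_add, map_smul, map_smul]
    have hNX : (N ^ m) (N X) = 0 := by
      rw [← Module.End.mul_apply, ← pow_succ]
      exact hX
    have hνx : (ν ^ n) (ν x) = 0 := by
      rw [← Module.End.mul_apply, ← pow_succ]
      exact hx
    rw [ih m n (N X) (ν x) (by omega) hNX hνx, ih m (n + 1) (N X) x (by omega) hNX hx,
      ih (m + 1) n X (ν x) (by omega) hX hνx, smul_zero, smul_zero, add_zero, add_zero]

theorem ad : S_AD := by
  intro K _ _ _ V _ _ _ θ g g' Y h h' hY β X hX
  rw [adE_apply]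
  refine op_ext g fun a x hx => ?_
  obtain ⟨m, hm⟩ := mem_gen.1 hX
  obtain ⟨n, hn⟩ := mem_gen.1 hx
  have h1 : X x ∈ g.maxGenEigenspace (β * a) :=
    mem_gen.2 ⟨m + n, eval_gen h' (m + n) m n X x le_rfl hm hn⟩
  rw [LinearMap.sub_apply, Module.End.mul_apply, Module.End.mul_apply, LinearMap.smul_apply,
    hY _ _ h1, hY _ _ hx, map_smul]
  by_cases ha : a = 0
  · have h2 : x = 0 := by
      rw [ha, map_zero, sub_zero] at hn
      have h3 : ∀ n : ℕ, g' ^ n * g ^ n = 1 := by
        intro n
        induction n with
        | zero => simp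
        | succ n ih =>
          calc g' ^ (n + 1) * g ^ (n + 1) = g' ^ n * (g' * g) * g ^ n := by
                rw [pow_succ, pow_succ']
                simp only [mul_assoc]
            _ = 1 := by rw [h', mul_one, ih]
      have h4 : x = (g' ^ n) ((g ^ n) x) := by
        rw [← Module.End.mul_apply, h3, Module.End.one_apply]
      rw [h4, hn, map_zero]
    rw [h2, map_zero, smul_zero, smul_zero, smul_zero, sub_zero]
  by_cases hβ : β = 0
  · have h2 : X = 0 := by
      rw [hβ, map_zero, sub_zero] at hm
      have h3 : AdE g' g * AdE g g' = 1 := by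
        apply LinearMap.ext
        intro Z
        rw [Module.End.mul_apply, AdE_apply, AdE_apply, Module.End.one_apply]
        calc g' * (g * (Z * g') * g) = (g' * g) * Z * (g' * g) := by
              simp only [mul_assoc]
          _ = Z := by rw [h', mul_one, one_mul]
      have h3' : ∀ n : ℕ, AdE g' g ^ n * AdE g g' ^ n = 1 := by
        intro n
        induction n with
        | zero => simp
        | succ n ih =>
          calc AdE g' g ^ (n + 1) * AdE g g' ^ (n + 1) =
                AdE g' g ^ n * (AdE g' g * AdE g g') * AdE g g' ^ n := by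
                rw [pow_succ, pow_succ']
                simp only [mul_assoc]
            _ = 1 := by rw [h3, mul_one, ih]
      have h4 : X = (AdE g' g ^ m) ((AdE g g' ^ m) X) := by
        rw [← Module.End.mul_apply, h3', Module.End.one_apply]
      rw [h4, hm, map_zero]
    rw [h2, LinearMap.zero_apply, smul_zero, smul_zero, smul_zero, sub_zero]
  rw [ext0_mul θ hβ ha, add_smul, add_sub_cancel_right]

end Pool.Agent.Y960.RM
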